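import Pool.Agent.FRE.Stmts

/-!
Squad FRE (MP_1fc801_co), row BPR (helper19): a Bohr set of `ZMod N` contains a large proper
progression.
-/

set_option autoImplicit false

namespace Pool.Agent.FRE.H19

/-- the multipliers: `1` and the elements of `R` -/
noncomputable def gam {N : ℕ} (D : ℕ) (R : Finset (ZMod N)) : Fin (D + 1) → ZMod N :=
  Fin.cons 1 fun i : Fin D => R.toList.getD i 0

lemma gam_zero {N : ℕ} (D : ℕ) (R : Finset (ZMod N)) : gam D R 0 = 1 := rfl

lemma exists_gam {N D : ℕ} {R : Finset (ZMod N)} (hR : R.card ≤ D) {r : ZMod N} (hr : r ∈ R) :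
    ∃ k, gam D R k = r := by
  obtain ⟨n, hn, hnr⟩ := List.mem_iff_getElem.mp (Finset.mem_toList.mpr hr)
  rw [Finset.length_toList] at hn
  refine ⟨Fin.succ ⟨n, by omega⟩, ?_⟩
  unfold gam
  rw [Fin.cons_succ]
  show R.toList.getD n 0 = r
  rw [List.getD_eq_getElem _ _ (by rw [Finset.length_toList]; exact hn), hnr]

/-- the group of the integer vectors `z` with `z_k = γ_k z_0` modulo `N` -/
def Lam {N n : ℕ} (γ : Fin (n + 1) → ZMod N) : AddSubgroup (Fin (n + 1) → ℝ) where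
  carrier := {z | ∃ w : Fin (n + 1) → ℤ, (∀ k, z k = (w k : ℝ)) ∧
    ∀ k, ((w k : ℤ) : ZMod N) = γ k * ((w 0 : ℤ) : ZMod N)}
  zero_mem' := ⟨0, fun _ => by simp, fun _ => by simp⟩
  add_mem' := by
    rintro x y ⟨w, h1, h2⟩ ⟨w', h1', h2'⟩
    refine ⟨w + w', fun k => ?_, fun k => ?_⟩
    · simp only [Pi.add_apply, h1, h1', Int.cast_add]
    · simp only [Pi.add_apply, Int.cast_add, h2 k, h2' k]
      ring
  neg_mem' := by
    rintro x ⟨w, h1, h2⟩
    refine ⟨-w, fun k => ?_, fun k => ?_⟩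
    · simp only [Pi.neg_apply, h1, Int.cast_neg]
    · simp only [Pi.neg_apply, Int.cast_neg, h2 k]
      ring

lemma mem_Lam {N n : ℕ} {γ : Fin (n + 1) → ZMod N} {z : Fin (n + 1) → ℝ} : z ∈ Lam γ ↔
    ∃ w : Fin (n + 1) → ℤ, (∀ k, z k = (w k : ℝ)) ∧
      ∀ k, ((w k : ℤ) : ZMod N) = γ k * ((w 0 : ℤ) : ZMod N) := Iff.rfl

lemma finite_ball {N n : ℕ} (γ : Fin (n + 1) → ZMod N) (ρ : ℝ) :
    {z : Fin (n + 1) → ℝ | z ∈ Lam γ ∧ ‖z‖ ≤ ρ}.Finite := by
  classical
  refine ((Fintype.piFinset fun _ : Fin (n + 1) => Finset.Icc (-⌊ρ⌋) ⌊ρ⌋).image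
    fun w k => ((w k : ℤ) : ℝ)).finite_toSet.subset ?_
  rintro z ⟨⟨w, h1, -⟩, hz⟩
  rw [Finset.mem_coe, Finset.mem_image]
  refine ⟨w, ?_, funext fun k => (h1 k).symm⟩
  rw [Fintype.mem_piFinset]
  intro k
  have h2 : |(w k : ℝ)| ≤ ρ := by
    rw [← h1, ← Real.norm_eq_abs]
    exact (norm_le_pi_norm z k).trans hz
  rw [abs_le] at h2
  rw [Finset.mem_Icc]
  constructor
  · rw [neg_le, Int.le_floor]
    push_cast
    linarith [h2.1]
  · rw [Int.le_floor]
    exact h2.2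

theorem bpr (hlat : LatStmt) : BprStmt := by
  classical
  intro D m
  obtain ⟨c, hc, hlat⟩ := hlat (D + 1)
  set M : ℕ := m + 1 with hM
  have hM0 : (0 : ℝ) < M := by positivity
  refine ⟨c / (4 * (M : ℝ) + 1) ^ (D + 1), by positivity, ?_⟩
  intro N _ R hR
  have hN : 0 < N := Nat.pos_of_ne_zero (NeZero.ne N)
  have hNr : (0 : ℝ) < N := by exact_mod_cast hN
  have hNz : (0 : ℤ) < N := by exact_mod_cast hN
  set γ := gam D R with hγ
  set r : ℝ := (N : ℝ) / (4 * M) with hr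
  -- many points of the lattice in the ball
  let Z : ZMod N → Fin (D + 1) → ℤ := fun x k => (γ k * x).valMinAbs
  let b : ZMod N → Fin (D + 1) → ℤ := fun x k => (4 * M * Z x k) / N
  let t : Finset (Fin (D + 1) → ℤ) :=
    Fintype.piFinset fun _ : Fin (D + 1) => Finset.Icc (-(2 * M : ℤ)) (2 * M)
  have ht : t.card = (4 * M + 1) ^ (D + 1) := by
    simp only [t, Fintype.card_piFinset, Int.card_Icc, Finset.prod_const, Finset.card_univ,
      Fintype.card_fin]
    congr 1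
    omega
  have hbt : ∀ x ∈ (Finset.univ : Finset (ZMod N)), b x ∈ t := by
    intro x _
    rw [Fintype.mem_piFinset]
    intro k
    have h1 := ZMod.valMinAbs_mem_Ioc (γ k * x)
    have h2 : -(N : ℤ) < Z x k * 2 := h1.1
    have h3 : Z x k * 2 ≤ N := h1.2
    rw [Finset.mem_Icc]
    have hMz : (0 : ℤ) < M := by
      rw [hM]
      positivity
    constructor
    · show -(2 * M : ℤ) ≤ (4 * M * Z x k) / N
      rw [Int.le_ediv_iff_mul_le hNz]
      nlinarith
    · show (4 * M * Z x k) / N ≤ (2 * M : ℤ)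
      have h4 : (4 * M * Z x k) / N < (2 * M : ℤ) + 1 := by
        rw [Int.ediv_lt_iff_lt_mul hNz]
        nlinarith
      omega
  have htne : t.Nonempty := ⟨b 0, hbt 0 (Finset.mem_univ 0)⟩
  obtain ⟨y, -, hy⟩ := Finset.exists_le_card_fiber_of_nsmul_le_card_of_maps_to
    (s := (Finset.univ : Finset (ZMod N))) (t := t) (f := b)
    (b := (N : ℝ) / (4 * (M : ℝ) + 1) ^ (D + 1)) hbt htne (by
      rw [ht, Finset.card_univ, ZMod.card, nsmul_eq_mul]
      push_cast
      rw [mul_div_cancel₀]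
      positivity)
  set F : Finset (ZMod N) := Finset.univ.filter fun x => b x = y with hF
  have hFne : F.Nonempty := by
    rw [← Finset.card_pos]
    have h1 : (0 : ℝ) < F.card := lt_of_lt_of_le (by positivity) hy
    exact_mod_cast h1
  obtain ⟨x₀, hx₀⟩ := hFne
  have hZc : ∀ x k, ((Z x k : ℤ) : ZMod N) = γ k * x := fun x k => ZMod.coe_valMinAbs _
  have hcount : (F.card : ℝ) ≤ ({z : Fin (D + 1) → ℝ | z ∈ Lam γ ∧ ‖z‖ ≤ r}.ncard : ℝ) := by
    have hinj : Set.InjOn (fun x k => ((Z x k - Z x₀ k : ℤ) : ℝ)) (F : Set (ZMod N)) := by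
      intro x _ x' _ h
      have h1 := congrFun h 0
      simp only [Int.cast_inj, sub_left_inj] at h1
      have h2 : ((Z x 0 : ℤ) : ZMod N) = ((Z x' 0 : ℤ) : ZMod N) := by rw [h1]
      rw [hZc, hZc, hγ, gam_zero, one_mul, one_mul] at h2
      exact h2
    have hsub : (fun x k => ((Z x k - Z x₀ k : ℤ) : ℝ)) '' (F : Set (ZMod N)) ⊆
        {z : Fin (D + 1) → ℝ | z ∈ Lam γ ∧ ‖z‖ ≤ r} := by
      rintro _ ⟨x, hx, rfl⟩
      constructor
      · rw [mem_Lam]
        refine ⟨fun k => Z x k - Z x₀ k, fun k => rfl, fun k => ?_⟩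
        rw [Int.cast_sub, Int.cast_sub, hZc, hZc, hZc, hZc, hγ, gam_zero]
        ring
      · rw [pi_norm_le_iff_of_nonneg (by positivity)]
        intro k
        rw [Real.norm_eq_abs, hr, le_div_iff₀ (by positivity)]
        have e1 : b x k = b x₀ k := by
          rw [(Finset.mem_filter.mp hx).2, (Finset.mem_filter.mp hx₀).2]
        have e2 : (4 * M * Z x k) / (N : ℤ) = (4 * M * Z x₀ k) / (N : ℤ) := e1
        have e3 := Int.emod_add_mul_ediv (4 * M * Z x k) N
        have e4 := Int.emod_add_mul_ediv (4 * M * Z x₀ k) N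
        have e5 := Int.emod_nonneg (4 * M * Z x k) hNz.ne'
        have e6 := Int.emod_nonneg (4 * M * Z x₀ k) hNz.ne'
        have e7 := Int.emod_lt_of_pos (4 * M * Z x k) hNz
        have e8 := Int.emod_lt_of_pos (4 * M * Z x₀ k) hNz
        rw [e2] at e3
        have e9 : |4 * M * (Z x k - Z x₀ k)| ≤ (N : ℤ) := by
          rw [abs_le]
          constructor <;> linarith
        rw [abs_mul, abs_of_nonneg (show (0 : ℤ) ≤ 4 * M by positivity)] at e9
        have e10 : ((4 * M * |Z x k - Z x₀ k| : ℤ) : ℝ) ≤ ((N : ℤ) : ℝ) := by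
          exact_mod_cast e9
        push_cast at e10
        rw [mul_comm]
        push_cast
        exact e10
    rw [← Set.ncard_coe_finset F, ← hinj.ncard_image]
    exact_mod_cast Set.ncard_le_ncard hsub (finite_ball γ r)
  obtain ⟨G, L, hG, hprop, hbox, hsize⟩ := hlat (Fin (D + 1) → ℝ) (Lam γ) r (by simp)
    (by positivity) (finite_ball γ)
  choose W hW1 hW2 using fun i => mem_Lam.mp (hG i)
  -- the coordinates of the sums
  have hwc : ∀ (x : Fin (D + 1) → ℤ) (k : Fin (D + 1)),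
      (∑ i, x i • G i) k = ((∑ i, x i * W i k : ℤ) : ℝ) := by
    intro x k
    rw [Finset.sum_apply, Int.cast_sum]
    refine Finset.sum_congr rfl fun i _ => ?_
    rw [Pi.smul_apply, hW1, zsmul_eq_mul, Int.cast_mul]
  have hwz : ∀ (x : Fin (D + 1) → ℤ) (k : Fin (D + 1)),
      γ k * ∑ i, x i • ((W i 0 : ℤ) : ZMod N) = ((∑ i, x i * W i k : ℤ) : ZMod N) := by
    intro x k
    rw [Finset.mul_sum, Int.cast_sum]
    refine Finset.sum_congr rfl fun i _ => ?_
    rw [zsmul_eq_mul, Int.cast_mul, hW2 i k]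
    ring
  have hwb : ∀ (x : Fin (D + 1) → ℤ), Box L x → ∀ k, |∑ i, x i * W i k| * (4 * M) ≤ (N : ℤ) := by
    intro x hx k
    have h1 := (norm_le_pi_norm (∑ i, x i • G i) k).trans (hbox x hx)
    rw [hwc, Real.norm_eq_abs, hr, le_div_iff₀ (by positivity)] at h1
    exact_mod_cast h1
  have hval : ∀ (x : Fin (D + 1) → ℤ), Box L x → ∀ k,
      (γ k * ∑ i, x i • ((W i 0 : ℤ) : ZMod N)).valMinAbs = ∑ i, x i * W i k := by
    intro x hx k
    rw [ZMod.valMinAbs_spec]
    refine ⟨hwz x k, ?_⟩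
    have h1 := hwb x hx k
    have h2 : |∑ i, x i * W i k| * 4 ≤ |∑ i, x i * W i k| * (4 * M) := by
      refine mul_le_mul_of_nonneg_left ?_ (abs_nonneg _)
      rw [hM]
      push_cast
      linarith
    have h3 : |∑ i, x i * W i k| * 4 ≤ (N : ℤ) := h2.trans h1
    generalize (∑ i, x i * W i k) = a at h3
    have h4 := neg_abs_le a
    have h5 := le_abs_self a
    rw [Set.mem_Ioc]
    constructor <;> omega
  refine ⟨fun i => ((W i 0 : ℤ) : ZMod N), L, ?_, ?_, ?_⟩
  · intro x x' hx hx' h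
    apply hprop x x' hx hx'
    funext k
    rw [hwc, hwc, ← hval x hx k, ← hval x' hx' k, h]
  · intro x hx s hs
    obtain ⟨k, hk⟩ := exists_gam hR hs
    rw [← hk, ← hγ, hval x hx k]
    have h1 := hwb x hx k
    generalize |∑ i, x i * W i k| = a at h1
    rw [hM] at h1
    push_cast at h1
    have hm0 : (0 : ℤ) ≤ m := Int.natCast_nonneg m
    rcases le_or_gt a 0 with h2 | h2
    · nlinarith
    · nlinarith
  · refine le_trans ?_ hsize
    have h1 : (N : ℝ) / (4 * (M : ℝ) + 1) ^ (D + 1) ≤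
        ({z : Fin (D + 1) → ℝ | z ∈ Lam γ ∧ ‖z‖ ≤ r}.ncard : ℝ) := hy.trans hcount
    calc c / (4 * (M : ℝ) + 1) ^ (D + 1) * N = c * ((N : ℝ) / (4 * (M : ℝ) + 1) ^ (D + 1)) := by ring
      _ ≤ _ := mul_le_mul_of_nonneg_left h1 hc.le

end Pool.Agent.FRE.H19
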